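import Pool.Agent.X316.DQ.Wron

/-!
# Linear dependence of powers of polynomials
-/

set_option autoImplicit false

namespace Pool.Agent.X316.DQ

open Polynomial

/-- a singular Wronskian matrix gives a linear dependence over the constants -/
theorem wronskian_dep {R A F : Type*} [CommRing R] [CommRing A] [IsDomain A] [Algebra R A]
    [Field F] (δ : Derivation R A A) (φ : F →+* A)
    (hprop : ∀ b : A, b ≠ 0 → ∀ a : A, a * δ b = b * δ a → ∃ x : F, a = φ x * b) :
    ∀ (r : ℕ) (f : Fin r → A),
      (Matrix.of fun b l : Fin r => (δ^[(l : ℕ)]) (f b)).det = 0 →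
      ∃ c : Fin r → F, c ≠ 0 ∧ ∑ b, φ (c b) * f b = 0 := by
  intro r
  induction r with
  | zero => intro f h; simp at h
  | succ r ih =>
    intro f h
    by_cases hW : (Matrix.of fun b l : Fin r => (δ^[(l : ℕ)]) (f b.succ)).det = 0
    · obtain ⟨c, hc, hs⟩ := ih (fun b => f b.succ) hW
      refine ⟨Fin.cons 0 c, ?_, ?_⟩
      · intro h0
        apply hc
        funext b
        have := congrFun h0 b.succ
        simpa using this
      · rw [Fin.sum_univ_succ]
        simp [hs]
    · obtain ⟨a, ha, hM⟩ := Matrix.exists_vecMul_eq_zero_iff.2 h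
      have hrel : ∀ l : ℕ, l < r + 1 → ∑ b, a b * (δ^[l]) (f b) = 0 := by
        intro l hl
        have := congrFun hM ⟨l, hl⟩
        simpa [Matrix.vecMul, dotProduct] using this
      have hker : ∀ u : Fin r → A, (∀ l : ℕ, l < r → ∑ b, u b * (δ^[l]) (f b.succ) = 0) →
          u = 0 := by
        intro u hu
        by_contra hne
        apply hW
        refine Matrix.exists_vecMul_eq_zero_iff.1 ⟨u, hne, ?_⟩
        funext l
        simpa [Matrix.vecMul, dotProduct] using hu l l.2
      have ha0 : a 0 ≠ 0 := by
        intro h0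
        have h1 : (fun b : Fin r => a b.succ) = 0 := by
          apply hker
          intro l hl
          have := hrel l (by omega)
          rw [Fin.sum_univ_succ, h0] at this
          simpa using this
        apply ha
        funext b
        refine Fin.cases h0 (fun b => ?_) b
        exact congrFun h1 b
      have hrel' : ∀ l : ℕ, l < r → ∑ b, δ (a b) * (δ^[l]) (f b) = 0 := by
        intro l hl
        have h1 := hrel l (by omega)
        have h2 := hrel (l + 1) (by omega)
        have h3 := congrArg δ h1
        rw [map_sum, map_zero] at h3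
        simp only [Derivation.leibniz, smul_eq_mul] at h3
        rw [Finset.sum_add_distrib] at h3
        simp only [Function.iterate_succ_apply'] at h2
        rw [h2, zero_add] at h3
        rw [← h3]
        exact Finset.sum_congr rfl fun b _ => mul_comm _ _
      have hu : (fun b : Fin r => a 0 * δ (a b.succ) - a b.succ * δ (a 0)) = 0 := by
        apply hker
        intro l hl
        have h1 := hrel l (by omega)
        have h2 := hrel' l hl
        rw [Fin.sum_univ_succ] at h1 h2
        have e : ∑ b : Fin r, (a 0 * δ (a b.succ) - a b.succ * δ (a 0)) * (δ^[l]) (f b.succ)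
            = a 0 * ∑ b : Fin r, δ (a b.succ) * (δ^[l]) (f b.succ)
              - δ (a 0) * ∑ b : Fin r, a b.succ * (δ^[l]) (f b.succ) := by
          rw [Finset.mul_sum, Finset.mul_sum, ← Finset.sum_sub_distrib]
          exact Finset.sum_congr rfl fun b _ => by ring
        rw [e]
        have e1 : ∑ b : Fin r, δ (a b.succ) * (δ^[l]) (f b.succ) =
            - (δ (a 0) * (δ^[l]) (f 0)) := by
          linear_combination h2
        have e2 : ∑ b : Fin r, a b.succ * (δ^[l]) (f b.succ) = - (a 0 * (δ^[l]) (f 0)) := by
          linear_combination h1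
        rw [e1, e2]
        ring
      have hx' : ∀ b : Fin r, ∃ x : F, a b.succ = φ x * a 0 := by
        intro b
        apply hprop (a 0) ha0
        have := congrFun hu b
        simp only [Pi.zero_apply] at this
        linear_combination -this
      choose x hx' using hx'
      refine ⟨Fin.cons 1 x, ?_, ?_⟩
      · intro h0
        have := congrFun h0 0
        simp at this
      · apply mul_left_cancel₀ ha0
        rw [mul_zero, Fin.sum_univ_succ]
        simp only [Fin.cons_zero, Fin.cons_succ, map_one, one_mul]
        have h1 := hrel 0 (by omega)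
        simp only [Function.iterate_zero, id_eq] at h1
        rw [Fin.sum_univ_succ] at h1
        have e : a 0 * ∑ b : Fin r, φ (x b) * f b.succ = ∑ b : Fin r, a b.succ * f b.succ := by
          rw [Finset.mul_sum]
          refine Finset.sum_congr rfl fun b _ => ?_
          have := hx' b
          linear_combination (-f b.succ) * this
        rw [mul_add, e]
        linear_combination h1

/-- two polynomials with vanishing Wronskian are proportional -/
lemma wron_eq_zero {a b : ℂ[X]} (ha : a ≠ 0) (h : wronskian a b = 0) :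
    ∃ c : ℂ, b = C c * a := by
  classical
  obtain ⟨a', b', ha', hb', hu⟩ := extract_gcd a b
  set g := gcd a b with hg
  have hg0 : g ≠ 0 := by
    rintro h0
    rw [h0, zero_mul] at ha'
    exact ha ha'
  have hco : IsCoprime a' b' := (gcd_isUnit_iff a' b').mp hu
  have h1 : wronskian a' b' = 0 := by
    have h2 : wronskian a b = g ^ 2 * wronskian a' b' := by
      rw [ha', hb']
      simp only [wronskian, derivative_mul]
      ring
    rw [h2] at h
    exact (mul_eq_zero.mp h).resolve_left (pow_ne_zero _ hg0)
  obtain ⟨h2, h3⟩ := hco.wronskian_eq_zero_iff.mp h1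
  have h4 := Polynomial.derivative_eq_zero.mp h2
  have h5 := Polynomial.derivative_eq_zero.mp h3
  rw [natDegree_eq_zero] at h4 h5
  obtain ⟨c1, h4⟩ := h4
  obtain ⟨c2, h5⟩ := h5
  have hc1 : c1 ≠ 0 := by
    rintro rfl
    rw [← h4] at ha'
    simp at ha'
    exact ha ha'
  refine ⟨c2 / c1, ?_⟩
  rw [ha', hb', ← h4, ← h5]
  have : C c2 = C (c2 / c1) * C c1 := by
    rw [← C_mul]
    congr 1
    field_simp
  rw [this]
  ring

/-- polynomials whose Wronskian vanishes are linearly dependent -/
lemma wr_dep (n : ℕ) (f : Fin n → ℂ[X]) (h : (wrM f).det = 0) :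
    ∃ c : Fin n → ℂ, c ≠ 0 ∧ ∑ i, C (c i) * f i = 0 := by
  refine wronskian_dep (derivative' : Derivation ℂ ℂ[X] ℂ[X]) (C : ℂ →+* ℂ[X]) ?_ n f ?_
  · intro b hb a h1
    refine wron_eq_zero hb ?_
    rw [wronskian]
    have h2 : a * derivative b = b * derivative a := h1
    linear_combination -h2
  · exact h

/-- The main estimate: if `q_0, ..., q_n` are polynomials of degree `m` without a common root, such
that `q_0 ^ d, ..., q_n ^ d` satisfy a linear relation with nonzero coefficients, and
`q_1 ^ d, ..., q_n ^ d` have a nonzero Wronskian, then `d` is not too large. -/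
theorem main_bound {n m d : ℕ} (hn : 1 ≤ n) (hnd : n ≤ d) (q : Fin (n + 1) → ℂ[X])
    (hq : ∀ i, (q i).natDegree = m) (hq0 : ∀ i, q i ≠ 0)
    (hroot : ∀ a : ℂ, ∃ k, (q k).eval a ≠ 0)
    (c : Fin (n + 1) → ℂ) (hc : ∀ i, c i ≠ 0) (hsum : ∑ i, C (c i) * q i ^ d = 0)
    (hW : (wrM fun i : Fin n => q i.succ ^ d).det ≠ 0) :
    (n + 1) * (m * (d - (n - 1))) + n * (n - 1) ≤ n * (m * d) := by
  classical
  set W := (wrM fun i : Fin n => q i.succ ^ d).det with hWdef
  set e := d - (n - 1) with he
  -- divisibility by the product over a subset which misses one index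
  have key : ∀ k : Fin (n + 1), (∏ i ∈ Finset.univ.erase k, q i ^ e) ∣ W := by
    intro k
    refine Fin.cases ?_ (fun k' => ?_) k
    · -- the rows themselves
      have h1 : wrM (fun i : Fin n => q i.succ ^ d) = Matrix.of fun (i j : Fin n) =>
          (q i.succ ^ e) * (derivative^[(j : ℕ)] (q i.succ ^ d) / (q i.succ ^ e)) := by
        ext1 i j
        simp only [wrM, Matrix.of_apply]
        rw [EuclideanDomain.mul_div_cancel' (pow_ne_zero _ (hq0 _))]
        refine dvd_trans (pow_dvd_pow _ ?_) (pow_sub_dvd_iterate_derivative_pow _ _ _)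
        have := j.2
        omega
      have h1' := Matrix.det_mul_column (fun i : Fin n => q i.succ ^ e)
        (Matrix.of fun (i j : Fin n) => (derivative^[(j : ℕ)] (q i.succ ^ d) / (q i.succ ^ e)))
      simp only [Matrix.of_apply] at h1'
      rw [hWdef, h1, h1']
      refine Dvd.dvd.mul_right ?_ _
      have h2 : Finset.univ.erase (0 : Fin (n + 1)) = Finset.univ.map (Fin.succEmb n) := by
        ext x
        simp only [Finset.mem_erase, Finset.mem_univ, and_true, Finset.mem_map, true_and]
        constructor
        · intro hx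
          exact ⟨x.pred hx, by simp⟩
        · rintro ⟨y, rfl⟩
          exact Fin.succ_ne_zero y
      rw [h2, Finset.prod_map]
      rfl
    · -- replace the row of `k'.succ` by the row of `0`
      set A := wrM (fun i : Fin n => q i.succ ^ d) with hA
      set r0 : Fin n → ℂ[X] := fun j => derivative^[(j : ℕ)] (q 0 ^ d) with hr0
      have h1 : ∑ i : Fin n, (C (c i.succ) : ℂ[X]) • A i = (-C (c 0) : ℂ[X]) • r0 := by
        funext j
        have h2 := congrArg (fun p => derivative^[(j : ℕ)] p) hsum
        simp only [iterate_derivative_sum, iterate_derivative_C_mul, iterate_map_zero] at h2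
        rw [Fin.sum_univ_succ] at h2
        simp only [Finset.sum_apply, Pi.smul_apply, smul_eq_mul, hA, wrM, Matrix.of_apply, hr0]
        linear_combination h2
      have h3 := Matrix.det_updateRow_sum A k' (fun i => (C (c i.succ) : ℂ[X]))
      rw [h1, Matrix.det_updateRow_smul, smul_eq_mul] at h3
      -- the new matrix
      have h4 : (∏ i ∈ Finset.univ.erase k'.succ, q i ^ e) ∣ (A.updateRow k' r0).det := by
        set s : Fin n → Fin (n + 1) := fun i => if i = k' then 0 else i.succ with hs
        have h5 : A.updateRow k' r0 = Matrix.of fun (i j : Fin n) =>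
          (q (s i) ^ e) * (derivative^[(j : ℕ)] (q (s i) ^ d) / (q (s i) ^ e)) := by
          ext1 i j
          simp only [Matrix.of_apply]
          rw [EuclideanDomain.mul_div_cancel' (pow_ne_zero _ (hq0 _))]
          · by_cases hi : i = k'
            · subst hi
              simp [hs, hr0]
            · rw [Matrix.updateRow_ne hi]
              simp [hs, hi, hA, wrM]
          · refine dvd_trans (pow_dvd_pow _ ?_) (pow_sub_dvd_iterate_derivative_pow _ _ _)
            have := j.2
            omega
        have h5' := Matrix.det_mul_column (fun i : Fin n => q (s i) ^ e)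
          (Matrix.of fun (i j : Fin n) => (derivative^[(j : ℕ)] (q (s i) ^ d) / (q (s i) ^ e)))
        simp only [Matrix.of_apply] at h5'
        rw [h5, h5']
        refine Dvd.dvd.mul_right ?_ _
        have hsinj : Function.Injective s := by
          intro x y hxy
          simp only [hs] at hxy
          by_cases hx : x = k' <;> by_cases hy : y = k'
          · rw [hx, hy]
          · simp [hx, hy] at hxy
            exact absurd hxy.symm (Fin.succ_ne_zero y)
          · simp [hx, hy] at hxy
          · simp [hx, hy] at hxy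
            exact hxy
        have h2 : Finset.univ.erase k'.succ = Finset.univ.map ⟨s, hsinj⟩ := by
          ext x
          simp only [Finset.mem_erase, Finset.mem_univ, and_true, Finset.mem_map, true_and,
            Function.Embedding.coeFn_mk]
          constructor
          · intro hx
            refine Fin.cases (fun _ => ⟨k', by simp [hs]⟩) (fun x' hx' => ⟨x', ?_⟩) x hx
            have : x' ≠ k' := fun h => hx' (by rw [h])
            simp [hs, this]
          · rintro ⟨y, rfl⟩
            simp only [hs]
            by_cases hy : y = k'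
            · simp [hy]
              exact (Fin.succ_ne_zero k').symm
            · simp [hy]
        rw [h2, Finset.prod_map]
        rfl
      have h6 : W = -(C (c k'.succ)⁻¹ * C (c 0)) * (A.updateRow k' r0).det := by
        have h7 : C (c k'.succ)⁻¹ * C (c k'.succ) = (1 : ℂ[X]) := by
          rw [← C_mul, inv_mul_cancel₀ (hc _), C_1]
        calc W = (C (c k'.succ)⁻¹ * C (c k'.succ)) * W := by rw [h7, one_mul]
          _ = _ := by
            rw [mul_assoc, ← h3]
            ring
      rw [h6]
      exact Dvd.dvd.mul_left h4 _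
  -- the full product divides
  have hP0 : (∏ i, q i ^ e) ≠ 0 := Finset.prod_ne_zero_iff.2 fun i _ => pow_ne_zero _ (hq0 i)
  have hdvd : (∏ i, q i ^ e) ∣ W := by
    rw [IsAlgClosed.dvd_iff_roots_le_roots hP0 hW, Multiset.le_iff_count]
    intro a
    rw [count_roots, count_roots]
    obtain ⟨k, hk⟩ := hroot a
    have h1 : rootMultiplicity a (∏ i, q i ^ e) =
        rootMultiplicity a (∏ i ∈ Finset.univ.erase k, q i ^ e) := by
      rw [← Finset.mul_prod_erase _ _ (Finset.mem_univ k)]
      rw [rootMultiplicity_mul (by
        rw [Finset.mul_prod_erase _ (fun i => q i ^ e) (Finset.mem_univ k)]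
        exact hP0)]
      have h2 : rootMultiplicity a (q k ^ e) = 0 := by
        apply rootMultiplicity_eq_zero
        rw [IsRoot.def, eval_pow]
        exact pow_ne_zero _ hk
      rw [h2, zero_add]
    rw [h1]
    exact rootMultiplicity_le_rootMultiplicity_of_dvd hW (key k) a
  have h1 : (∏ i, q i ^ e).natDegree ≤ W.natDegree := natDegree_le_of_dvd hdvd hW
  have h2 : (∏ i, q i ^ e).natDegree = (n + 1) * (m * e) := by
    rw [natDegree_prod _ _ (fun i _ => pow_ne_zero _ (hq0 i))]
    simp only [natDegree_pow, hq, Finset.sum_const, Finset.card_univ, Fintype.card_fin, smul_eq_mul]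
    ring
  have h3 := natDegree_wr (D := m * d) (fun i : Fin n => q i.succ ^ d) (by
    intro i
    rw [natDegree_pow, hq]
    exact le_of_eq (mul_comm _ _)) hW
  rw [← hWdef] at h3
  omega


/-- the existence of a minimal relation -/
theorem pow_dep_bound {N m d : ℕ} (p : Fin (N + 1) → ℂ[X]) (hm : 1 ≤ m) (hd : 1 ≤ d)
    (hp : ∀ i, (p i).natDegree = m)
    (hprop : ∀ i j, i ≠ j → ∀ a : ℂ, p i ≠ C a * p j)
    (c : Fin (N + 1) → ℂ) (hc : c ≠ 0) (hsum : ∑ i, C (c i) * p i ^ d = 0) :
    ∃ n, 2 ≤ n ∧ n ≤ N ∧ ∃ g : Fin (n + 1) → Fin (N + 1), Function.Injective g ∧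
      ∃ c' : Fin (n + 1) → ℂ, (∀ i, c' i ≠ 0) ∧ ∑ i, C (c' i) * p (g i) ^ d = 0 ∧
        (wrM fun i : Fin n => p (g i.succ) ^ d).det ≠ 0 := by
  classical
  have hp0 : ∀ i, p i ≠ 0 := by
    intro i h
    have := hp i
    rw [h, natDegree_zero] at this
    omega
  let P : ℕ → Prop := fun n => ∃ g : Fin (n + 1) → Fin (N + 1), Function.Injective g ∧
      ∃ c' : Fin (n + 1) → ℂ, c' ≠ 0 ∧ ∑ i, C (c' i) * p (g i) ^ d = 0
  have hPN : P N := ⟨id, Function.injective_id, c, hc, hsum⟩
  have hex : ∃ n, P n := ⟨N, hPN⟩
  obtain ⟨n, hPn, hmin, hnN⟩ : ∃ n, P n ∧ (∀ k < n, ¬ P k) ∧ n ≤ N :=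
    ⟨Nat.find hex, Nat.find_spec hex, fun k hk => Nat.find_min hex hk, Nat.find_min' hex hPN⟩
  obtain ⟨g, hg, c', hc', hs'⟩ := hPn
  have hcn : ∀ i, c' i ≠ 0 := by
    intro k hk
    rcases n with _ | n
    · apply hc'
      funext i
      rw [show i = k from Fin.ext (by have := i.2; have := k.2; omega), hk]
      rfl
    · refine hmin n (by omega) ⟨fun i => g (k.succAbove i),
        hg.comp Fin.succAbove_right_injective, fun i => c' (k.succAbove i), ?_, ?_⟩
      · intro h0
        apply hc'
        funext i
        by_cases hik : i = k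
        · rw [hik, hk]; rfl
        · obtain ⟨j, rfl⟩ := Fin.exists_succAbove_eq hik
          exact congrFun h0 j
      · rw [Fin.sum_univ_succAbove _ k, hk] at hs'
        simpa using hs'
  refine ⟨n, ?_, hnN, g, hg, c', hcn, hs', ?_⟩
  · by_contra hlt
    rcases n with _ | _ | n
    · simp only [Nat.reduceAdd, Finset.univ_unique, Fin.default_eq_zero, Fin.isValue,
        Finset.sum_singleton] at hs'
      rcases mul_eq_zero.1 hs' with h | h
      · exact hcn 0 (C_eq_zero.1 h)
      · exact pow_ne_zero _ (hp0 _) h
    · rw [Fin.sum_univ_two] at hs'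
      have h1 : p (g 0) ^ d = p (g 1) ^ d * C (-(c' 1) / c' 0) := by
        have h2 : C (c' 0)⁻¹ * C (c' 0) = (1 : ℂ[X]) := by
          rw [← C_mul, inv_mul_cancel₀ (hcn _), C_1]
        have h3 : (C (-(c' 1) / c' 0) : ℂ[X]) = - (C (c' 0)⁻¹ * C (c' 1)) := by
          rw [← C_mul, ← C_neg]
          congr 1
          field_simp
        rw [h3]
        linear_combination (C (c' 0)⁻¹) * hs' - (p (g 0) ^ d) * h2
      have h2 : p (g 1) ∣ p (g 0) := by
        exact (IsIntegrallyClosed.pow_dvd_pow_iff (n := d) (by omega)).1 ⟨_, h1⟩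
      obtain ⟨r, hr⟩ := h2
      have hr0 : r ≠ 0 := by
        rintro rfl
        exact hp0 (g 0) (by rw [hr, mul_zero])
      have h3 := congrArg natDegree hr
      rw [natDegree_mul (hp0 _) hr0, hp, hp] at h3
      have h4 : r.natDegree = 0 := by omega
      rw [natDegree_eq_zero] at h4
      obtain ⟨a, ha⟩ := h4
      refine hprop (g 0) (g 1) (fun h => ?_) a ?_
      · have := hg h
        simp at this
      · rw [hr, ← ha, mul_comm]
    · omega
  · intro hW
    obtain ⟨c2, hc2, hs2⟩ := wr_dep n _ hW
    rcases n with _ | n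
    · exact hc2 (Subsingleton.elim _ _)
    · exact hmin n (by omega) ⟨fun i => g i.succ, hg.comp (Fin.succ_injective _), c2, hc2, hs2⟩

/-- six pairwise nonproportional quadratic polynomials: if their `d`-th powers are linearly
dependent then `d ≤ 14` -/
theorem quadratic_bound {d : ℕ} (p : Fin 6 → ℂ[X]) (hp : ∀ i, (p i).natDegree = 2)
    (hprop : ∀ i j, i ≠ j → ∀ a : ℂ, p i ≠ C a * p j)
    (c : Fin 6 → ℂ) (hc : c ≠ 0) (hsum : ∑ i, C (c i) * p i ^ d = 0) : d ≤ 14 := by
  by_contra hd
  push Not at hd
  obtain ⟨n, hn2, hnN, g, hg, c', hc', hs', hW⟩ := pow_dep_bound (N := 5) p (by norm_num)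
    (by omega) hp hprop c hc hsum
  by_cases hroot : ∀ a : ℂ, ∃ k, (p (g k)).eval a ≠ 0
  · have h := main_bound (m := 2) (d := d) (by omega) (by omega) (fun i => p (g i))
      (fun i => hp _) (fun i h => by have := hp (g i); rw [h, natDegree_zero] at this; omega)
      hroot c' hc' hs' hW
    interval_cases n <;> omega
  · push Not at hroot
    obtain ⟨a, ha⟩ := hroot
    have h1 : ∀ i, ∃ l : ℂ[X], p (g i) = (X - C a) * l := by
      intro i
      exact dvd_iff_isRoot.2 (ha i)
    choose l hl using h1
    have hl0 : ∀ i, l i ≠ 0 := by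
      intro i h
      have := hp (g i)
      rw [hl, h, mul_zero, natDegree_zero] at this
      omega
    have hldeg : ∀ i, (l i).natDegree = 1 := by
      intro i
      have := hp (g i)
      rw [hl, natDegree_mul (X_sub_C_ne_zero a) (hl0 i), natDegree_X_sub_C] at this
      omega
    have hsl : ∑ i, C (c' i) * l i ^ d = 0 := by
      have h2 : (X - C a) ^ d * ∑ i, C (c' i) * l i ^ d = 0 := by
        rw [← hs', Finset.mul_sum]
        refine Finset.sum_congr rfl fun i _ => ?_
        rw [hl, mul_pow]
        ring
      exact (mul_eq_zero.1 h2).resolve_left (pow_ne_zero _ (X_sub_C_ne_zero a))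
    have hrl : ∀ b : ℂ, ∃ k, (l k).eval b ≠ 0 := by
      intro b
      by_contra hcon
      push Not at hcon
      have h3 : ∀ i, ∃ r : ℂ, l i = (X - C b) * C r := by
        intro i
        obtain ⟨r, hr⟩ := dvd_iff_isRoot.2 (hcon i)
        have hr0 : r ≠ 0 := by
          rintro rfl
          exact hl0 i (by rw [hr, mul_zero])
        have h4 := hldeg i
        rw [hr, natDegree_mul (X_sub_C_ne_zero b) hr0, natDegree_X_sub_C] at h4
        obtain ⟨x, hx⟩ := natDegree_eq_zero.1 (show r.natDegree = 0 by omega)
        exact ⟨x, by rw [hr, ← hx]⟩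
      choose r hr using h3
      have hr1 : r 1 ≠ 0 := by
        intro h
        apply hl0 1
        rw [hr, h, C_0, mul_zero]
      refine hprop (g 0) (g 1) (fun h => ?_) (r 0 / r 1) ?_
      · have h5 := hg h
        rw [Fin.ext_iff] at h5
        have h6 : ((1 : Fin (n + 1)) : ℕ) = 1 := by
          rw [Fin.val_one']
          exact Nat.mod_eq_of_lt (by omega)
        rw [h6] at h5
        simp at h5
      · have h5 : (C (r 0) : ℂ[X]) = C (r 0 / r 1) * C (r 1) := by
          rw [← C_mul, div_mul_cancel₀ _ hr1]
        rw [hl, hl, hr, hr, h5]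
        ring
    have hWl : (wrM fun i : Fin n => l i.succ ^ d).det ≠ 0 := by
      intro h0
      obtain ⟨c2, hc2, hs2⟩ := wr_dep n _ h0
      -- then the powers of the `p` are dependent as well, contradicting the nonvanishing
      apply hW
      have h7 : ∑ i : Fin n, C (c2 i) * p (g i.succ) ^ d = 0 := by
        have h8 : ∑ i : Fin n, C (c2 i) * p (g i.succ) ^ d =
            (X - C a) ^ d * ∑ i : Fin n, C (c2 i) * l i.succ ^ d := by
          rw [Finset.mul_sum]
          refine Finset.sum_congr rfl fun i _ => ?_
          rw [hl, mul_pow]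
          ring
        rw [h8, hs2, mul_zero]
      refine Matrix.exists_vecMul_eq_zero_iff.1 ⟨fun i => C (c2 i), ?_, ?_⟩
      · intro h9
        apply hc2
        funext i
        exact C_eq_zero.1 (congrFun h9 i)
      · funext j
        have h10 := congrArg (fun q => derivative^[(j : ℕ)] q) h7
        simp only [iterate_derivative_sum, iterate_derivative_C_mul, iterate_map_zero] at h10
        simp only [Matrix.vecMul, dotProduct, wrM, Matrix.of_apply, Pi.zero_apply]
        exact h10
    have h := main_bound (m := 1) (d := d) (by omega) (by omega) l hldeg hl0 hrl c' hc' hsl hWl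
    interval_cases n <;> omega

end Pool.Agent.X316.DQ
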