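import Mathlib

/-!
# Wronskians of polynomials: the degree bound and nonvanishing
-/

set_option autoImplicit false

namespace Pool.Agent.X316.DQ

open Polynomial

/-- the Wronskian matrix -/
noncomputable def wrM {n : ℕ} (f : Fin n → ℂ[X]) : Matrix (Fin n) (Fin n) ℂ[X] :=
  Matrix.of fun i j => derivative^[(j : ℕ)] (f i)

/-- the sum of `n` distinct natural numbers is at least `0 + 1 + ... + (n - 1)` -/
lemma sum_distinct (n : ℕ) (b : Fin n → ℕ) (hb : Function.Injective b) :
    n * (n - 1) ≤ 2 * ∑ i, b i := by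
  classical
  set B : Finset ℕ := Finset.univ.image b with hB
  have hc : B.card = n := by
    rw [hB, Finset.card_image_of_injective _ hb, Finset.card_univ, Fintype.card_fin]
  have h1 : ∑ i, b i = ∑ x ∈ B, x := by
    rw [hB, Finset.sum_image (fun x _ y _ h => hb h)]
  have h2 : ∑ x ∈ B, x = ∑ i : Fin n, B.orderEmbOfFin hc i := by
    rw [← Finset.sum_image (f := fun x : ℕ => x) (g := fun i => B.orderEmbOfFin hc i)
      (s := Finset.univ)]
    · congr 1
      ext x
      simp only [Finset.mem_image, Finset.mem_univ, true_and]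
      have := Finset.range_orderEmbOfFin B hc
      constructor
      · intro hx
        have hx' : x ∈ Set.range (B.orderEmbOfFin hc) := by rw [this]; exact hx
        exact hx'
      · rintro ⟨i, rfl⟩
        exact Finset.orderEmbOfFin_mem _ _ _
    · intro x _ y _ h
      exact (B.orderEmbOfFin hc).injective h
  have h3 : ∀ i : Fin n, (i : ℕ) ≤ B.orderEmbOfFin hc i := by
    intro i
    obtain ⟨i, hi⟩ := i
    induction i with
    | zero => simp
    | succ k ih =>
      have h4 := ih (by omega)
      have h5 : B.orderEmbOfFin hc ⟨k, by omega⟩ < B.orderEmbOfFin hc ⟨k + 1, hi⟩ :=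
        (B.orderEmbOfFin hc).strictMono (by simp [Fin.lt_def])
      simp only at h4 ⊢
      omega
  have h6 : ∑ i : Fin n, (i : ℕ) ≤ ∑ i, b i := by
    rw [h1, h2]
    exact Finset.sum_le_sum fun i _ => h3 i
  have h7 : (∑ i : Fin n, (i : ℕ)) * 2 = n * (n - 1) := by
    rw [Fin.sum_univ_eq_sum_range (fun i => i) n]
    exact Finset.sum_range_id_mul_two n
  omega

/-- the Wronskian of distinct powers of `X` -/
lemma natDegree_det_pow {n : ℕ} (D : ℕ) (a : Fin n → ℕ) (ha : Function.Injective a)
    (hD : ∀ i, a i ≤ D) :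
    (Matrix.of fun i j : Fin n => derivative^[(j : ℕ)] ((X : ℂ[X]) ^ (a i))).det.natDegree +
      n * (n - 1) ≤ n * D := by
  classical
  have h1 := sum_distinct n (fun i => D - a i) (by
    intro x y h
    have h2 := hD x
    have h3 := hD y
    apply ha
    simp only at h
    omega)
  have h2 : ∑ i, (D - a i) + ∑ i, a i = n * D := by
    rw [← Finset.sum_add_distrib]
    rw [Finset.sum_congr rfl (fun i _ => Nat.sub_add_cancel (hD i))]
    simp
  have h7 : (∑ i : Fin n, (i : ℕ)) * 2 = n * (n - 1) := by
    rw [Fin.sum_univ_eq_sum_range (fun i => i) n]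
    exact Finset.sum_range_id_mul_two n
  have h8 := sum_distinct n a ha
  have key : (Matrix.of fun i j : Fin n =>
      derivative^[(j : ℕ)] ((X : ℂ[X]) ^ (a i))).det.natDegree ≤
      ∑ i, a i - ∑ i : Fin n, (i : ℕ) := by
    rw [Matrix.det_apply]
    refine natDegree_sum_le_of_forall_le _ _ ?_
    intro σ _
    refine (natDegree_smul_le _ _).trans ?_
    by_cases hle : ∀ i : Fin n, (i : ℕ) ≤ a (σ i)
    · refine (natDegree_prod_le _ _).trans ?_
      have h9 : ∀ i ∈ (Finset.univ : Finset (Fin n)),
          (Matrix.of (fun i j : Fin n => derivative^[(j : ℕ)] ((X : ℂ[X]) ^ (a i))) (σ i) i).natDegree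
            ≤ a (σ i) - (i : ℕ) := by
        intro i _
        simp only [Matrix.of_apply]
        rw [iterate_derivative_X_pow_eq_C_mul]
        refine (natDegree_C_mul_le _ _).trans ?_
        rw [natDegree_X_pow]
      refine (Finset.sum_le_sum h9).trans ?_
      have h10 : ∑ i, (a (σ i) - (i : ℕ)) + ∑ i : Fin n, (i : ℕ) = ∑ i, a i := by
        rw [← Finset.sum_add_distrib, Finset.sum_congr rfl
          (fun i _ => Nat.sub_add_cancel (hle i))]
        exact Equiv.sum_comp σ a
      omega
    · push Not at hle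
      obtain ⟨i, hi⟩ := hle
      have h9 : ∏ i, Matrix.of (fun i j : Fin n => derivative^[(j : ℕ)] ((X : ℂ[X]) ^ (a i)))
          (σ i) i = 0 := by
        refine Finset.prod_eq_zero (Finset.mem_univ i) ?_
        simp only [Matrix.of_apply]
        rw [iterate_derivative_X_pow_eq_C_mul, Nat.descFactorial_eq_zero_iff_lt.2 hi]
        simp
      rw [h9]
      simp
  omega

/-- the degree of the Wronskian of `n` polynomials of degree at most `D` is at most
`n (D - n + 1)` -/
lemma natDegree_wr {n D : ℕ} (f : Fin n → ℂ[X]) (hf : ∀ i, (f i).natDegree ≤ D)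
    (hW : (wrM f).det ≠ 0) : (wrM f).det.natDegree + n * (n - 1) ≤ n * D := by
  classical
  have h1 : wrM f = fun i => ∑ a : Fin (D + 1), (C ((f i).coeff a) : ℂ[X]) •
      (fun j : Fin n => derivative^[(j : ℕ)] ((X : ℂ[X]) ^ (a : ℕ))) := by
    funext i j
    simp only [wrM, Matrix.of_apply, Finset.sum_apply, Pi.smul_apply, smul_eq_mul]
    conv_lhs => rw [(f i).as_sum_range_C_mul_X_pow' (n := D + 1) (by have := hf i; omega)]
    rw [iterate_derivative_sum, Finset.sum_range]
    refine Finset.sum_congr rfl fun a _ => ?_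
    rw [iterate_derivative_C_mul]
  have h2 : (wrM f).det = ∑ a : Fin n → Fin (D + 1), (∏ i, (C ((f i).coeff (a i)) : ℂ[X])) •
      (Matrix.of fun i j : Fin n => derivative^[(j : ℕ)] ((X : ℂ[X]) ^ ((a i : Fin (D + 1)) : ℕ))).det := by
    rw [h1]
    have h3 := (Matrix.detRowAlternating (n := Fin n) (R := ℂ[X])).toMultilinearMap.map_sum
      (fun (i : Fin n) (a : Fin (D + 1)) => (C ((f i).coeff a) : ℂ[X]) •
      (fun j : Fin n => derivative^[(j : ℕ)] ((X : ℂ[X]) ^ (a : ℕ))))
    refine h3.trans (Finset.sum_congr rfl fun a _ => ?_)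
    exact (Matrix.detRowAlternating (n := Fin n) (R := ℂ[X])).toMultilinearMap.map_smul_univ _ _
  -- every term is small
  have h4 : ∀ a : Fin n → Fin (D + 1), (Matrix.of fun i j : Fin n =>
      derivative^[(j : ℕ)] ((X : ℂ[X]) ^ ((a i : Fin (D + 1)) : ℕ))).det ≠ 0 →
      (Matrix.of fun i j : Fin n =>
        derivative^[(j : ℕ)] ((X : ℂ[X]) ^ ((a i : Fin (D + 1)) : ℕ))).det.natDegree +
        n * (n - 1) ≤ n * D := by
    intro a ha
    refine natDegree_det_pow D (fun i => (a i : ℕ)) ?_ (fun i => by have := (a i).2; omega)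
    intro x y hxy
    by_contra hne
    apply ha
    apply Matrix.det_zero_of_row_eq hne
    funext j
    simp only [Matrix.of_apply]
    simp only at hxy
    rw [hxy]
  have h5 : n * (n - 1) ≤ n * D := by
    by_contra hlt
    apply hW
    rw [h2]
    refine Finset.sum_eq_zero fun a _ => ?_
    by_cases ha : (Matrix.of fun i j : Fin n =>
      derivative^[(j : ℕ)] ((X : ℂ[X]) ^ ((a i : Fin (D + 1)) : ℕ))).det = 0
    · rw [ha, smul_zero]
    · have := h4 a ha
      omega
  have h6 : (wrM f).det.natDegree ≤ n * D - n * (n - 1) := by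
    rw [h2]
    refine natDegree_sum_le_of_forall_le _ _ ?_
    intro a _
    by_cases ha : (Matrix.of fun i j : Fin n =>
      derivative^[(j : ℕ)] ((X : ℂ[X]) ^ ((a i : Fin (D + 1)) : ℕ))).det = 0
    · rw [ha, smul_zero, natDegree_zero]
      omega
    · have h7 := h4 a ha
      rw [smul_eq_mul]
      refine natDegree_mul_le.trans ?_
      have h8 : (∏ i, (C ((f i).coeff (a i)) : ℂ[X])).natDegree = 0 := by
        rw [← map_prod, natDegree_C]
      omega
  omega

end Pool.Agent.X316.DQ
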